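import Pool.Agent.U594.Codeg.Limit

/-!
# MP_af2786_co: the codegree Turán density of `K_{k+1}^k` tends to one

`codegreeDensity k (complete k (k + 1))` is `π_{k-1}(K_{k+1}^k)`. It tends to `1` as `k → ∞`; in
particular it is not `1 / 2` for all `k ≥ 2`, and it exceeds `1 / 2` for all large `k`.

Construction. Divide the vertices into `L` equal parts. For every vertex set `X` choose a random
colouring `ω X` of the vertices with `m` colours `ZMod m`. Call a set `P` bad for a colouring if
some colour is missing on `P` or the colours on `P` add up to zero. Large sets are bad with
probability about `1 / m`, but every nonempty set `Q` contains a vertex `q` such that `Q \ {q}` is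
bad. For a `(k + 1)`-set `K` a part `i` is chosen which depends only on the numbers of vertices of
`K` in the parts, and which contains many vertices of `K`; a `k`-set `S = K \ {q}` with `q` in the
part `i` is removed if `S ∩ part i` is bad for the colouring with the index `S \ part i`, which is
`K \ part i`. So every `(k + 1)`-set contains a removed set. For a `(k - 1)`-set `T` the sets
`T ∪ {z}` removed for a part which does not contain `z` are few for every `T`, by the union bound.
The others come from the parts `j` such that `j` is the part chosen for `T` with two more vertices
in the part `j`. The choice of the part is made so that there are at most two such `j`: let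
`p_i = Σ_{l < i} (b_l - θ)⁺` for the numbers `b_l` of vertices of `K` in the parts and let `x` be the
residue of `- Σ l b_l` modulo `2 L`; choose the part `i` with `p_i / p_L ≤ x / 2 L < p_{i+1} / p_L`.
Two more vertices in the part `j` change `x` by `- 2 j`, which decreases with `j`, while the
intervals increase with `j`. Thus the removed sets have codegrees at most `(2 / L + ε) n`.
-/

set_option autoImplicit false

namespace Pool.Agent.Results.MP_af2786_co.DensityTendsToOne

open Pool.Agent.U594.Codeg Filter Topology

/-- `π_{k-1}(K_{k+1}^k) → 1` as `k → ∞`; in particular `π_{k-1}(K_{k+1}^k) = 1 / 2` does not hold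
for all `k ≥ 2`. -/
theorem result :
    Tendsto (fun k : ℕ => codegreeDensity k (complete k (k + 1))) atTop (𝓝 1) ∧
    ¬ ∀ k : ℕ, 2 ≤ k → codegreeDensity k (complete k (k + 1)) = 1 / 2 := by
  refine ⟨tendsto_density, fun h => ?_⟩
  have h1 : Tendsto (fun _ : ℕ => (1 / 2 : ℝ)) atTop (𝓝 1) := by
    refine tendsto_density.congr' ?_
    filter_upwards [eventually_ge_atTop 2] with k hk
    exact h k hk
  have h2 := tendsto_nhds_unique h1 tendsto_const_nhds
  norm_num at h2

end Pool.Agent.Results.MP_af2786_co.DensityTendsToOne
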